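import Mathlib
import Pool.Agent.W873.RS.Stm

set_option autoImplicit false

open MeasureTheory ProbabilityTheory Polynomial Filter Topology
open scoped ENNReal

namespace Pool.Agent.W697.RS.PAIR

open Pool.Agent.W873.RS

noncomputable def sg (A : Finset ℕ) (σ : ℕ → ℝ) (x : ℝ) : ℝ :=
  Real.sqrt (∑ j : A, (σ j * x ^ (j : ℕ)) ^ 2)

noncomputable def uv (A : Finset ℕ) (σ : ℕ → ℝ) (x : ℝ) : A → ℝ :=
  fun j => σ j * x ^ (j : ℕ) / sg A σ x

lemma sum_pos (A : Finset ℕ) (σ : ℕ → ℝ) (x : ℝ) (hx : 0 < x) (hA : A.Nonempty)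
    (hσ : ∀ j ∈ A, σ j ≠ 0) : 0 < ∑ j : A, (σ j * x ^ (j : ℕ)) ^ 2 := by
  obtain ⟨k, hk⟩ := hA
  apply Finset.sum_pos' (fun j _ => sq_nonneg _)
  refine ⟨⟨k, hk⟩, Finset.mem_univ _, ?_⟩
  have h1 := hσ k hk
  have h2 : σ k * x ^ k ≠ 0 := mul_ne_zero h1 (pow_pos hx k).ne'
  exact (sq_pos_iff).mpr h2

lemma sg_pos (A : Finset ℕ) (σ : ℕ → ℝ) (x : ℝ) (hx : 0 < x) (hA : A.Nonempty)
    (hσ : ∀ j ∈ A, σ j ≠ 0) : 0 < sg A σ x :=
  Real.sqrt_pos.mpr (sum_pos A σ x hx hA hσ)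

lemma uv_unit (A : Finset ℕ) (σ : ℕ → ℝ) (x : ℝ) (hx : 0 < x) (hA : A.Nonempty)
    (hσ : ∀ j ∈ A, σ j ≠ 0) : ∑ j, uv A σ x j ^ 2 = 1 := by
  unfold uv
  simp_rw [div_pow]
  rw [← Finset.sum_div, sg, Real.sq_sqrt (sum_pos A σ x hx hA hσ).le,
    div_self (sum_pos A σ x hx hA hσ).ne']

lemma lin_eval (A : Finset ℕ) (σ : ℕ → ℝ) (x : ℝ) (hx : 0 < x) (hA : A.Nonempty)
    (hσ : ∀ j ∈ A, σ j ≠ 0) (z : A → ℝ) :
    (lin A σ z).eval x = sg A σ x * ip z (uv A σ x) := by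
  have h := (sg_pos A σ x hx hA hσ).ne'
  unfold lin ip uv
  rw [eval_finset_sum, Finset.mul_sum]
  apply Finset.sum_congr rfl
  intro j _
  rw [eval_mul, eval_C, eval_pow, eval_X]
  field_simp

lemma sg_sq (A : Finset ℕ) (σ : ℕ → ℝ) (x : ℝ) :
    sg A σ x ^ 2 = ∑ j ∈ A, σ j ^ 2 * x ^ (2 * j) := by
  rw [sg, Real.sq_sqrt (Finset.sum_nonneg fun j _ => sq_nonneg _),
    Finset.sum_coe_sort A (fun j => (σ j * x ^ j) ^ 2)]
  apply Finset.sum_congr rfl
  intro j _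
  rw [mul_pow, ← pow_mul, mul_comm j 2]

lemma frz_eval {s : ℕ} (A : Fin s → Finset ℕ) (σ : Fin s → ℕ → ℝ) (c : Fin s → ℝ)
    (h : ℝ[X]) (w : Fin s → ℝ) (x : ℝ) :
    (frz A σ c h w).eval x = h.eval x + ∑ i, c i * sg (A i) (σ i) x ^ 2 * w i ^ 2 := by
  unfold frz
  rw [eval_add, eval_finset_sum]
  congr 1
  apply Finset.sum_congr rfl
  intro i _
  rw [eval_mul, eval_C, eval_finset_sum, sg_sq]
  have : ∑ j ∈ A i, eval x (C (σ i j ^ 2) * X ^ (2 * j)) = ∑ j ∈ A i, σ i j ^ 2 * x ^ (2 * j) := by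
    apply Finset.sum_congr rfl
    intro j _
    rw [eval_mul, eval_C, eval_pow, eval_X]
  rw [this]
  ring

lemma total_eval {s : ℕ} (A : Fin s → Finset ℕ) (σ : Fin s → ℕ → ℝ) (c : Fin s → ℝ)
    (h : ℝ[X]) (z : (i : Fin s) → A i → ℝ) (x : ℝ) (hx : 0 < x) (hA : ∀ i, (A i).Nonempty)
    (hσ : ∀ i, ∀ j ∈ A i, σ i j ≠ 0) :
    (total A σ c h z).eval x =
      h.eval x + ∑ i, c i * sg (A i) (σ i) x ^ 2 * ip (z i) (uv (A i) (σ i) x) ^ 2 := by
  unfold total
  rw [eval_add, eval_finset_sum]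
  congr 1
  apply Finset.sum_congr rfl
  intro i _
  rw [eval_mul, eval_C, eval_pow, lin_eval (A i) (σ i) x hx (hA i) (hσ i)]
  ring

lemma sc_trans {a b c : ℝ} (h : sc a c) : sc a b ∨ sc b c := by
  unfold sc at *
  tauto

lemma sc_mul {s t a b : ℝ} (hs : 0 < s) (ht : 0 < t) : sc (s * a) (t * b) ↔ sc a b := by
  unfold sc
  rw [mul_neg_iff, mul_neg_iff]
  have h1 : ¬ s < 0 := not_lt.mpr hs.le
  have h2 : ¬ t < 0 := not_lt.mpr ht.le
  tauto

lemma ip_meas {κ : Type} [Fintype κ] (u : κ → ℝ) : Measurable (fun z : κ → ℝ => ip z u) := by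
  unfold ip
  fun_prop

theorem main (hy : Pool.Agent.W873.RS.HY) (ga4 : Pool.Agent.W873.RS.GA4)
    (law : Pool.Agent.W873.RS.LAW) : Pool.Agent.W873.RS.PAIR := by
  intro s A σ c h x y hx hy0 hA hσ
  have hu : ∀ i, ∑ j, uv (A i) (σ i) x j ^ 2 = 1 := fun i => uv_unit _ _ _ hx (hA i) (hσ i)
  have hv : ∀ i, ∑ j, uv (A i) (σ i) y j ^ 2 = 1 := fun i => uv_unit _ _ _ hy0 (hA i) (hσ i)
  let W : ((i : Fin s) → A i → ℝ) → (Fin s → ℝ) := fun z i => ip (z i) (uv (A i) (σ i) x)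
  have hW : Measurable W := by
    apply measurable_pi_lambda
    intro i
    exact (ip_meas _).comp (measurable_pi_apply i)
  let p : (i : Fin s) → (A i → ℝ) → ℝ := fun i z =>
    c i * sg (A i) (σ i) y ^ 2 * ip z (uv (A i) (σ i) x) ^ 2
  let q : (i : Fin s) → (A i → ℝ) → ℝ := fun i z =>
    c i * sg (A i) (σ i) y ^ 2 * ip z (uv (A i) (σ i) y) ^ 2
  have hp : ∀ i, Measurable (p i) := fun i => ((ip_meas _).pow_const 2).const_mul _
  have hq : ∀ i, Measurable (q i) := fun i => ((ip_meas _).pow_const 2).const_mul _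
  have hE1 : cm A (W ⁻¹' {w | sc ((frz A σ c h w).eval x) ((frz A σ c h w).eval y)}) ≤
      Measure.pi (fun _ : Fin s => gaussianReal 0 1)
        {w | sc ((frz A σ c h w).eval x) ((frz A σ c h w).eval y)} := by
    have h1 := law s (fun i => (A i : Type)) (fun i => uv (A i) (σ i) x) hu
    rw [← h1]
    exact Measure.le_map_apply hW.aemeasurable _
  have hE2 : cm A {z | sc (∑ i, p i (z i) + h.eval y) (∑ i, q i (z i) + h.eval y)} ≤
      ∑ i, 2 * gm (A i) {z | sc ((lin (A i) (σ i) z).eval x) ((lin (A i) (σ i) z).eval y)} := by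
    refine hy s (fun i => A i → ℝ) (fun i => gm (A i)) p q _ hp hq ?_ (h.eval y)
    intro i r
    have h2 := ga4 (A i) (uv (A i) (σ i) x) (uv (A i) (σ i) y)
      (c i * sg (A i) (σ i) y ^ 2) r (hu i) (hv i)
    have h3 : {z : A i → ℝ | sc (ip z (uv (A i) (σ i) x)) (ip z (uv (A i) (σ i) y))} =
        {z | sc ((lin (A i) (σ i) z).eval x) ((lin (A i) (σ i) z).eval y)} := by
      ext z
      rw [Set.mem_setOf_eq, Set.mem_setOf_eq, lin_eval (A i) (σ i) x hx (hA i) (hσ i),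
        lin_eval (A i) (σ i) y hy0 (hA i) (hσ i),
        sc_mul (sg_pos _ _ _ hx (hA i) (hσ i)) (sg_pos _ _ _ hy0 (hA i) (hσ i))]
    rw [h3] at h2
    exact h2
  calc cm A {z | sc ((total A σ c h z).eval x) ((total A σ c h z).eval y)}
      ≤ cm A (W ⁻¹' {w | sc ((frz A σ c h w).eval x) ((frz A σ c h w).eval y)} ∪
          {z | sc (∑ i, p i (z i) + h.eval y) (∑ i, q i (z i) + h.eval y)}) := by
        apply measure_mono
        intro z hz
        have h4 : (frz A σ c h (W z)).eval x = (total A σ c h z).eval x := by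
          rw [frz_eval, total_eval A σ c h z x hx hA hσ]
        have h5 : (frz A σ c h (W z)).eval y = ∑ i, p i (z i) + h.eval y := by
          rw [frz_eval, add_comm]
        have h6 : (total A σ c h z).eval y = ∑ i, q i (z i) + h.eval y := by
          rw [total_eval A σ c h z y hy0 hA hσ, add_comm]
        have hz' : sc ((total A σ c h z).eval x) ((total A σ c h z).eval y) := hz
        rcases sc_trans (b := (frz A σ c h (W z)).eval y) hz' with h7 | h7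
        · left
          change sc ((frz A σ c h (W z)).eval x) ((frz A σ c h (W z)).eval y)
          rw [h4]
          exact h7
        · right
          rw [h5, h6] at h7
          exact h7
    _ ≤ _ := measure_union_le _ _
    _ ≤ _ := add_le_add hE1 hE2

end Pool.Agent.W697.RS.PAIR
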